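import Pool.Agent.Helper86.QA.St4
import Pool.Agent.Helper35.PQF.St

/-!
# Project QD, part A, OCT: orbit counting by conjugacy classes

Eigenprojections instead of diagonalisation: for `A` with eigenvalue `μ`, `|μ| > 1`, put
`E = (A - μ⁻¹)/(μ - μ⁻¹)`; it has trace one and determinant zero, and for a conjugating element `g`
the number `hs (ρ g E)` plays the role of `|s|²`.
-/

set_option autoImplicit false

open MeasureTheory Matrix Set Topology Filter
open scoped ENNReal ComplexConjugate ComplexOrder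

namespace Pool.Agent.Helper93.QA

open Pool.Agent.Helper86.QA Pool.Agent.Helper20
open Pool.Agent.Helper35.PM (hs IsDiscrete num classes len tl St_HS1 St_HS2 St_LN St_CL)
open Pool.Agent.Helper20.QD (CC)

/-! ### matrices -/

private lemma hs_two (A : Mat) :
    hs A = ‖A 0 0‖ ^ 2 + ‖A 0 1‖ ^ 2 + (‖A 1 0‖ ^ 2 + ‖A 1 1‖ ^ 2) := by
  simp [hs, Fin.sum_univ_two]

private lemma hs_nn (A : Mat) : 0 ≤ hs A := by rw [hs_two]; positivity

private lemma hs_smul' (c : ℂ) (A : Mat) : hs (c • A) = ‖c‖ ^ 2 * hs A := by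
  simp only [hs_two, Matrix.smul_apply, smul_eq_mul, norm_mul]
  ring

private lemma nadd (a b : ℂ) : ‖a + b‖ ^ 2 ≤ 2 * ‖a‖ ^ 2 + 2 * ‖b‖ ^ 2 := by
  have h := norm_add_le a b
  have h2 := norm_nonneg (a + b)
  nlinarith [sq_nonneg (‖a‖ - ‖b‖)]

private lemma hs_add_le' (A B : Mat) : hs (A + B) ≤ 2 * hs A + 2 * hs B := by
  simp only [hs_two, Matrix.add_apply]
  have h1 := nadd (A 0 0) (B 0 0)
  have h2 := nadd (A 0 1) (B 0 1)
  have h3 := nadd (A 1 0) (B 1 0)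
  have h4 := nadd (A 1 1) (B 1 1)
  linarith

private lemma hs_eq0 {A : Mat} (h : hs A = 0) : A = 0 := by
  rw [hs_two] at h
  have h1 : ‖A 0 0‖ ^ 2 = 0 := by nlinarith [sq_nonneg ‖A 0 0‖, sq_nonneg ‖A 0 1‖, sq_nonneg ‖A 1 0‖, sq_nonneg ‖A 1 1‖]
  have h2 : ‖A 0 1‖ ^ 2 = 0 := by nlinarith [sq_nonneg ‖A 0 0‖, sq_nonneg ‖A 0 1‖, sq_nonneg ‖A 1 0‖, sq_nonneg ‖A 1 1‖]
  have h3 : ‖A 1 0‖ ^ 2 = 0 := by nlinarith [sq_nonneg ‖A 0 0‖, sq_nonneg ‖A 0 1‖, sq_nonneg ‖A 1 0‖, sq_nonneg ‖A 1 1‖]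
  have h4 : ‖A 1 1‖ ^ 2 = 0 := by nlinarith [sq_nonneg ‖A 0 0‖, sq_nonneg ‖A 0 1‖, sq_nonneg ‖A 1 0‖, sq_nonneg ‖A 1 1‖]
  ext i j
  fin_cases i <;> fin_cases j <;> simp_all

private lemma hs_pos' {A : Mat} (h : A ≠ 0) : 0 < hs A :=
  lt_of_le_of_ne (hs_nn A) fun h2 => h (hs_eq0 h2.symm)

private lemma inv_coe (A : SL) :
    ((A⁻¹ : SL) : Mat) = !![A 1 1, -(A 0 1); -(A 1 0), A 0 0] := by
  rw [Matrix.SpecialLinearGroup.coe_inv, Matrix.adjugate_fin_two]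

/-- adjugates -/
private lemma hs_adj (A : SL) (E : Mat) (hE : E.trace = 1) :
    hs ((A : Mat) * (1 - E)) = hs (E * ((A⁻¹ : SL) : Mat)) := by
  have h : E 1 1 = 1 - E 0 0 := by
    rw [Matrix.trace_fin_two] at hE
    linear_combination hE
  have e1 : ((A : Mat) * (1 - E)) 0 0 = (E * ((A⁻¹ : SL) : Mat)) 1 1 := by
    rw [inv_coe]
    simp [Matrix.mul_apply, Fin.sum_univ_two, h]
    try ring
  have e2 : ((A : Mat) * (1 - E)) 0 1 = -(E * ((A⁻¹ : SL) : Mat)) 0 1 := by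
    rw [inv_coe]
    simp [Matrix.mul_apply, Fin.sum_univ_two, h]
    try ring
  have e3 : ((A : Mat) * (1 - E)) 1 0 = -(E * ((A⁻¹ : SL) : Mat)) 1 0 := by
    rw [inv_coe]
    simp [Matrix.mul_apply, Fin.sum_univ_two, h]
    try ring
  have e4 : ((A : Mat) * (1 - E)) 1 1 = (E * ((A⁻¹ : SL) : Mat)) 0 0 := by
    rw [inv_coe]
    simp [Matrix.mul_apply, Fin.sum_univ_two, h]
    try ring
  rw [hs_two, hs_two, e1, e2, e3, e4, norm_neg, norm_neg]
  ring

private lemma rank_one (E : Mat) (hE : E.det = 0) : ∃ u w : Fin 2 → ℂ, E = vecMulVec u w := by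
  rw [Matrix.det_fin_two] at hE
  by_cases h0 : E 0 0 = 0
  · rw [h0, zero_mul, zero_sub, neg_eq_zero, mul_eq_zero] at hE
    rcases hE with h1 | h1
    · refine ⟨![0, 1], ![E 1 0, E 1 1], ?_⟩
      ext i j
      fin_cases i <;> fin_cases j <;> simp [vecMulVec_apply, h0, h1]
    · refine ⟨![E 0 1, E 1 1], ![0, 1], ?_⟩
      ext i j
      fin_cases i <;> fin_cases j <;> simp [vecMulVec_apply, h0, h1]
  · refine ⟨![E 0 0, E 1 0], ![1, E 0 1 / E 0 0], ?_⟩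
    ext i j
    fin_cases i <;> fin_cases j
    · simp [vecMulVec_apply]
    · simp [vecMulVec_apply]
      field_simp
    · simp [vecMulVec_apply]
    · simp [vecMulVec_apply]
      field_simp
      linear_combination hE

private lemma hs_vec (u w : Fin 2 → ℂ) :
    hs (vecMulVec u w) = (‖u 0‖ ^ 2 + ‖u 1‖ ^ 2) * (‖w 0‖ ^ 2 + ‖w 1‖ ^ 2) := by
  simp only [hs_two, vecMulVec_apply, norm_mul]
  ring

private lemma hs_rank (E M N : Mat) (hE : E.det = 0) :
    hs (M * E) * hs (E * N) = hs (M * E * N) * hs E := by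
  obtain ⟨u, w, rfl⟩ := rank_one E hE
  rw [Matrix.mul_vecMulVec, Matrix.vecMulVec_mul, Matrix.vecMulVec_mul, hs_vec, hs_vec, hs_vec,
    hs_vec]
  ring

/-- eigenprojection -/
private noncomputable def Ep (A : SL) (μ : ℂ) : Mat := (μ - μ⁻¹)⁻¹ • ((A : Mat) - μ⁻¹ • 1)

private lemma mu_facts {τ μ : ℂ} (h : μ ^ 2 - τ * μ + 1 = 0) : μ ≠ 0 ∧ τ = μ + μ⁻¹ := by
  have h0 : μ ≠ 0 := by
    rintro rfl
    norm_num at h
  refine ⟨h0, ?_⟩
  field_simp
  linear_combination -h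

private lemma cayley (A : SL) : (A : Mat) * (A : Mat) = (A : Mat).trace • (A : Mat) - 1 := by
  have hd := A.det_coe
  rw [Matrix.det_fin_two] at hd
  ext i j
  fin_cases i <;> fin_cases j
  · simp [Matrix.mul_apply, Fin.sum_univ_two, Matrix.trace_fin_two]
    linear_combination -hd
  · simp [Matrix.mul_apply, Fin.sum_univ_two, Matrix.trace_fin_two]
    ring
  · simp [Matrix.mul_apply, Fin.sum_univ_two, Matrix.trace_fin_two]
    ring
  · simp [Matrix.mul_apply, Fin.sum_univ_two, Matrix.trace_fin_two]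
    linear_combination -hd

private lemma Ep_facts (A : SL) (μ : ℂ) (h : μ ^ 2 - (A : Mat).trace * μ + 1 = 0)
    (hne : μ - μ⁻¹ ≠ 0) : (Ep A μ).det = 0 ∧ (Ep A μ).trace = 1 ∧
      (A : Mat) * Ep A μ = μ • Ep A μ ∧ Ep A μ * Ep A μ = Ep A μ := by
  obtain ⟨h0, hτ⟩ := mu_facts h
  have hA : (A : Mat) * Ep A μ = μ • Ep A μ := by
    unfold Ep
    rw [Matrix.mul_smul, Matrix.mul_sub, Matrix.mul_smul, Matrix.mul_one, cayley, hτ, smul_comm μ]
    congr 1
    rw [smul_sub, smul_smul, mul_inv_cancel₀ h0, one_smul]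
    module
  refine ⟨?_, ?_, hA, ?_⟩
  · unfold Ep
    rw [Matrix.det_smul]
    have : ((A : Mat) - μ⁻¹ • (1 : Mat)).det = 0 := by
      have hd := A.det_coe
      rw [Matrix.det_fin_two] at hd
      rw [Matrix.det_fin_two]
      rw [Matrix.trace_fin_two] at hτ
      simp
      have e : μ * μ⁻¹ = 1 := mul_inv_cancel₀ h0
      linear_combination hd - μ⁻¹ * hτ - e
    rw [this, mul_zero]
  · unfold Ep
    rw [Matrix.trace_smul, Matrix.trace_sub, Matrix.trace_smul, Matrix.trace_one, hτ, smul_eq_mul,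
      smul_eq_mul]
    have e : μ + μ⁻¹ - μ⁻¹ * ((Fintype.card (Fin 2) : ℕ) : ℂ) = μ - μ⁻¹ := by
      rw [Fintype.card_fin]
      push_cast
      ring
    rw [e, inv_mul_cancel₀ hne]
  · conv_lhs => lhs; unfold Ep
    rw [Matrix.smul_mul, Matrix.sub_mul, hA, Matrix.smul_mul, Matrix.one_mul, ← sub_smul, smul_smul,
      inv_mul_cancel₀ hne, one_smul]

private lemma Ep_conj (A g : SL) (μ : ℂ) :
    Ep (g * A * g⁻¹) μ = (g : Mat) * Ep A μ * ((g⁻¹ : SL) : Mat) := by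
  have e : (g : Mat) * ((g⁻¹ : SL) : Mat) = 1 := by
    rw [← Matrix.SpecialLinearGroup.coe_mul, mul_inv_cancel]
    rfl
  unfold Ep
  rw [Matrix.mul_smul, Matrix.smul_mul, Matrix.mul_sub, Matrix.sub_mul, Matrix.mul_smul,
    Matrix.smul_mul, Matrix.mul_one, e, Matrix.SpecialLinearGroup.coe_mul,
    Matrix.SpecialLinearGroup.coe_mul]

private lemma mu_big {τ μ : ℂ} (h : μ ^ 2 - τ * μ + 1 = 0) (h1 : 1 ≤ ‖μ‖) (h16 : 16 ≤ ‖τ‖ ^ 2) :
    3 ≤ ‖μ‖ ∧ ‖τ‖ / 2 ≤ ‖μ - μ⁻¹‖ ∧ μ - μ⁻¹ ≠ 0 := by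
  obtain ⟨h0, hτ⟩ := mu_facts h
  have h4 : 4 ≤ ‖τ‖ := by
    by_contra hc
    push Not at hc
    nlinarith [norm_nonneg τ]
  have hi : ‖μ⁻¹‖ ≤ 1 := by
    rw [norm_inv]
    exact inv_le_one_of_one_le₀ h1
  have h5 : ‖τ‖ ≤ ‖μ‖ + ‖μ⁻¹‖ := by
    rw [hτ]
    exact norm_add_le _ _
  have h6 : ‖μ‖ - ‖μ⁻¹‖ ≤ ‖μ - μ⁻¹‖ := norm_sub_norm_le _ _
  have h7 : ‖τ‖ / 2 ≤ ‖μ - μ⁻¹‖ := by linarith
  refine ⟨by linarith, h7, fun h8 => ?_⟩
  rw [h8, norm_zero] at h7
  linarith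

private lemma Ep_bound (A : SL) (μ : ℂ) (h2 : 2 ≤ hs (A : Mat))
    (h : μ ^ 2 - (A : Mat).trace * μ + 1 = 0) (h1 : 1 ≤ ‖μ‖)
    (h16 : 16 ≤ ‖(A : Mat).trace‖ ^ 2) {c : ℝ} (hc : 0 < c)
    (hA : c * hs (A : Mat) ≤ ‖(A : Mat).trace‖ ^ 2) : hs (Ep A μ) ≤ 16 / c := by
  obtain ⟨-, h7, hne⟩ := mu_big h h1 h16
  have hi : ‖μ⁻¹‖ ≤ 1 := by
    rw [norm_inv]
    exact inv_le_one_of_one_le₀ h1
  have hi2 : ‖μ⁻¹‖ ^ 2 ≤ 1 := by
    have := norm_nonneg μ⁻¹
    nlinarith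
  have e1 : hs (Ep A μ) * ‖μ - μ⁻¹‖ ^ 2 ≤ 4 * hs (A : Mat) := by
    have hp : (0 : ℝ) < ‖μ - μ⁻¹‖ := norm_pos_iff.2 hne
    unfold Ep
    rw [hs_smul', norm_inv]
    have e2 := hs_add_le' (A : Mat) (-(μ⁻¹ • (1 : Mat)))
    have e3 : hs (-(μ⁻¹ • (1 : Mat))) = 2 * ‖μ⁻¹‖ ^ 2 := by
      rw [← neg_smul, hs_smul', norm_neg, hs_two]
      simp
      ring
    rw [e3, ← sub_eq_add_neg] at e2
    have e4 : (‖μ - μ⁻¹‖⁻¹ ^ 2 * hs ((A : Mat) - μ⁻¹ • (1 : Mat))) * ‖μ - μ⁻¹‖ ^ 2 =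
        hs ((A : Mat) - μ⁻¹ • (1 : Mat)) := by
      rw [inv_pow, mul_comm, ← mul_assoc, mul_inv_cancel₀ (by positivity), one_mul]
    rw [e4]
    linarith
  have e5 : ‖(A : Mat).trace‖ ^ 2 / 4 ≤ ‖μ - μ⁻¹‖ ^ 2 := by
    have := norm_nonneg (A : Mat).trace
    nlinarith
  have e6 : hs (Ep A μ) * (‖(A : Mat).trace‖ ^ 2 / 4) ≤ 4 * hs (A : Mat) :=
    (mul_le_mul_of_nonneg_left e5 (hs_nn _)).trans e1
  rw [le_div_iff₀ hc]
  have e7 : hs (Ep A μ) * (c * hs (A : Mat)) ≤ 16 * hs (A : Mat) := by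
    have := mul_le_mul_of_nonneg_left hA (hs_nn (Ep A μ))
    linarith
  have hp : 0 < hs (A : Mat) := by linarith
  by_contra hcon
  push Not at hcon
  have := mul_lt_mul_of_pos_right hcon hp
  linarith

private lemma zpow_E (A : SL) (E : Mat) (μ : ℂ) (h0 : μ ≠ 0) (hA : (A : Mat) * E = μ • E) (k : ℤ) :
    ((A ^ k : SL) : Mat) * E = μ ^ k • E := by
  have hB : ((A⁻¹ : SL) : Mat) * E = μ⁻¹ • E := by
    have e : ((A⁻¹ : SL) : Mat) * (A : Mat) = 1 := by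
      rw [← Matrix.SpecialLinearGroup.coe_mul, inv_mul_cancel]
      rfl
    have h1 : E = ((A⁻¹ : SL) : Mat) * (μ • E) := by
      rw [← hA, ← Matrix.mul_assoc, e, Matrix.one_mul]
    rw [Matrix.mul_smul] at h1
    conv_rhs => rw [h1]
    rw [smul_smul, inv_mul_cancel₀ h0, one_smul]
  induction k using Int.induction_on with
  | zero => simp
  | succ i ih =>
    rw [_root_.zpow_add_one, Matrix.SpecialLinearGroup.coe_mul, Matrix.mul_assoc, hA, Matrix.mul_smul, ih,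
      smul_smul, zpow_add_one₀ h0]
    congr 1
    ring
  | pred i ih =>
    rw [_root_.zpow_sub_one, Matrix.SpecialLinearGroup.coe_mul, Matrix.mul_assoc, hB, Matrix.mul_smul, ih,
      smul_smul, zpow_sub_one₀ h0]
    congr 1
    ring

/-! ### one conjugacy class -/

private lemma fib {Γ : Type} [Group Γ] (hHS1 : St_HS1) (hHS2 : St_HS2) (ρ : Γ →* SL)
    (hd : IsDiscrete ρ) (c1 : ℝ) (hc1 : 0 < c1) (Y : ℝ) (S : Finset Γ)
    (hS : ∀ γ ∈ S, hs (ρ γ : Mat) ≤ Y ∧ 16 ≤ ‖(ρ γ : Mat).trace‖ ^ 2 ∧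
      c1 * hs (ρ γ : Mat) ≤ ‖(ρ γ : Mat).trace‖ ^ 2) (γ₁ : Γ) (h1 : γ₁ ∈ S)
    (hconj : ∀ γ ∈ S, IsConj γ₁ γ) :
    S.card ≤ (hd (12 * (16 / c1) ^ 2)).toFinset.card * (⌊Real.log Y⌋₊ + 1) := by
  classical
  obtain ⟨μ, hμ, hμ1, htl⟩ := hHS2.1 (ρ γ₁)
  obtain ⟨hY1, h16, hgood⟩ := hS γ₁ h1
  obtain ⟨h3, -, hne⟩ := mu_big hμ hμ1 h16
  obtain ⟨h0, hτ⟩ := mu_facts hμ
  obtain ⟨hdet, htr, hAE, hEE⟩ := Ep_facts (ρ γ₁) μ hμ hne
  set E := Ep (ρ γ₁) μ with hE
  have hE0 : E ≠ 0 := by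
    intro h
    rw [h, Matrix.trace_zero] at htr
    exact zero_ne_one htr
  have hC2 : hs E ≤ 16 / c1 := Ep_bound _ _ (hHS1.2.2.1 _) hμ hμ1 h16 hc1 hgood
  have hC0 : 0 ≤ 16 / c1 := by positivity
  -- every element of the class is conjugate by a suitable element
  have hex : ∀ γ ∈ S, ∃ g : Γ, g * γ₁ * g⁻¹ = γ ∧ 1 ≤ hs ((ρ g : Mat) * E) ∧
      hs ((ρ g : Mat) * E) < ‖μ‖ ^ 2 := by
    intro γ hγ
    obtain ⟨g, hg⟩ := isConj_iff.1 (hconj γ hγ)
    have hx : 0 < hs ((ρ g : Mat) * E) := by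
      apply hs_pos'
      intro h
      apply hE0
      have e : ((ρ g)⁻¹ : SL) * ρ g = 1 := inv_mul_cancel _
      have e' : (((ρ g)⁻¹ : SL) : Mat) * (ρ g : Mat) = 1 := by
        rw [← Matrix.SpecialLinearGroup.coe_mul, e]
        rfl
      calc E = (((ρ g)⁻¹ : SL) : Mat) * ((ρ g : Mat) * E) := by
            rw [← Matrix.mul_assoc, e', Matrix.one_mul]
        _ = 0 := by rw [h, Matrix.mul_zero]
    have hy : 1 < ‖μ‖ ^ 2 := by nlinarith
    obtain ⟨n, hn⟩ := exists_mem_Ico_zpow hx hy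
    refine ⟨g * γ₁ ^ (-n), ?_, ?_⟩
    · rw [← hg]
      group
    · have e1 : ((ρ (g * γ₁ ^ (-n)) : SL) : Mat) * E = μ ^ (-n) • ((ρ g : Mat) * E) := by
        rw [map_mul, map_zpow, Matrix.SpecialLinearGroup.coe_mul, Matrix.mul_assoc,
          zpow_E _ E μ h0 hAE, Matrix.mul_smul]
      have hp : 0 < (‖μ‖ ^ 2) ^ n := by positivity
      have e2 : hs (((ρ (g * γ₁ ^ (-n)) : SL) : Mat) * E) = hs ((ρ g : Mat) * E) / (‖μ‖ ^ 2) ^ n := by
        have e3 : (‖μ‖ ^ (-n)) ^ 2 = ((‖μ‖ ^ 2) ^ n)⁻¹ := by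
          rw [_root_.zpow_neg, inv_pow]
          congr 1
          rw [← zpow_natCast, ← zpow_natCast, ← _root_.zpow_mul, ← _root_.zpow_mul, mul_comm]
        rw [e1, hs_smul', norm_zpow, e3, div_eq_inv_mul]
      rw [e2]
      constructor
      · rw [le_div_iff₀ hp, one_mul]
        exact hn.1
      · rw [div_lt_iff₀ hp]
        have h4 := hn.2
        rw [zpow_add_one₀ (by positivity)] at h4
        linarith
  choose! g hg1 hg2 hg3 using hex
  -- the product with the other projection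
  have hxz : ∀ γ ∈ S, hs ((ρ (g γ) : Mat) * E) * hs (E * (((ρ (g γ))⁻¹ : SL) : Mat)) ≤
      (16 / c1) ^ 2 := by
    intro γ hγ
    rw [hs_rank _ _ _ hdet, hE, ← Ep_conj]
    obtain ⟨-, b1, b2⟩ := hS γ hγ
    have e1 : ρ (g γ) * ρ γ₁ * (ρ (g γ))⁻¹ = ρ γ := by
      rw [← map_mul, ← map_inv, ← map_mul, hg1 γ hγ]
    rw [e1]
    have e2 : ((ρ γ : SL) : Mat).trace = (ρ γ₁ : Mat).trace := by
      rw [← e1, Matrix.SpecialLinearGroup.coe_mul, Matrix.trace_mul_comm, ← Matrix.SpecialLinearGroup.coe_mul]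
      congr 2
      group
    have e3 := Ep_bound (ρ γ) μ (hHS1.2.2.1 _) (by rw [e2]; exact hμ) hμ1 b1 hc1 b2
    rw [pow_two]
    exact mul_le_mul e3 hC2 (hs_nn _) hC0
  have hlog : ∀ γ ∈ S, 0 ≤ Real.log (hs ((ρ (g γ) : Mat) * E)) := fun γ hγ =>
    Real.log_nonneg (hg2 γ hγ)
  have hfin := Finset.card_le_mul_card_image (f := fun γ => ⌊Real.log (hs ((ρ (g γ) : Mat) * E))⌋₊) S
    (hd (12 * (16 / c1) ^ 2)).toFinset.card ?_
  · refine hfin.trans (Nat.mul_le_mul_left _ ?_)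
    have hsub : S.image (fun γ => ⌊Real.log (hs ((ρ (g γ) : Mat) * E))⌋₊) ⊆
        Finset.range (⌊Real.log Y⌋₊ + 1) := by
      intro b hb
      obtain ⟨γ, hγ, rfl⟩ := Finset.mem_image.1 hb
      rw [Finset.mem_range, Nat.lt_succ_iff]
      apply Nat.floor_le_floor
      apply Real.log_le_log (by linarith [hg2 γ hγ])
      have e1 := (hHS2.2.2.1 (ρ γ₁)).2
      rw [htl] at e1
      have e2 : Real.exp (2 * Real.log ‖μ‖) = ‖μ‖ ^ 2 := by
        rw [mul_comm, Real.exp_mul, Real.exp_log (by linarith)]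
        norm_cast
      rw [e2] at e1
      linarith [hg3 γ hγ]
    calc _ ≤ (Finset.range (⌊Real.log Y⌋₊ + 1)).card := Finset.card_le_card hsub
      _ = _ := Finset.card_range _
  · intro b hb
    obtain ⟨γ₂, hγ₂, hb2⟩ := Finset.mem_image.1 hb
    apply Finset.card_le_card_of_injOn (fun γ => g γ * (g γ₂)⁻¹)
    · intro γ hγ
      simp only [Finset.coe_filter, Set.mem_setOf_eq] at hγ
      obtain ⟨hγ, hγb⟩ := hγ
      simp only [Set.Finite.coe_toFinset, Set.mem_setOf_eq]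
      -- ratio
      have r1 : Real.log (hs ((ρ (g γ) : Mat) * E)) ≤ Real.log (hs ((ρ (g γ₂) : Mat) * E)) + 1 := by
        have h5 := Nat.lt_floor_add_one (Real.log (hs ((ρ (g γ) : Mat) * E)))
        have h6 := Nat.floor_le (hlog γ₂ hγ₂)
        rw [hγb] at h5
        rw [hb2] at h6
        linarith
      have r2 : Real.log (hs ((ρ (g γ₂) : Mat) * E)) ≤ Real.log (hs ((ρ (g γ) : Mat) * E)) + 1 := by
        have h5 := Nat.lt_floor_add_one (Real.log (hs ((ρ (g γ₂) : Mat) * E)))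
        have h6 := Nat.floor_le (hlog γ hγ)
        rw [hb2] at h5
        rw [hγb] at h6
        linarith
      have conv : ∀ x y : ℝ, 1 ≤ x → 1 ≤ y → Real.log x ≤ Real.log y + 1 → x ≤ 3 * y := by
        intro x y hx hy hxy
        have h7 : Real.exp (Real.log x) ≤ Real.exp (Real.log y + 1) := Real.exp_le_exp.2 hxy
        rw [Real.exp_add, Real.exp_log (by linarith), Real.exp_log (by linarith)] at h7
        have h8 := Real.exp_one_lt_d9
        nlinarith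
      have q1 := conv _ _ (hg2 γ hγ) (hg2 γ₂ hγ₂) r1
      have q2 := conv _ _ (hg2 γ₂ hγ₂) (hg2 γ hγ) r2
      have z1 := hxz γ hγ
      have z2 := hxz γ₂ hγ₂
      set M := (ρ (g γ) : Mat) with hM
      set x := hs (M * E) with hx
      set N' := (((ρ (g γ₂))⁻¹ : SL) : Mat) with hN
      set y := hs ((ρ (g γ₂) : Mat) * E) with hy
      have split : ((ρ (g γ * (g γ₂)⁻¹) : SL) : Mat) =
          (M * E) * (E * N') + (M * (1 - E)) * ((1 - E) * N') := by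
        rw [map_mul, map_inv, Matrix.SpecialLinearGroup.coe_mul, ← hM, ← hN]
        have e5 : (1 - E) * (1 - E) = 1 - E := by
          rw [Matrix.sub_mul, Matrix.one_mul, Matrix.mul_sub, Matrix.mul_one, hEE, sub_self,
            sub_zero]
        have e6 : (M * E) * (E * N') = M * E * N' := by
          rw [Matrix.mul_assoc, ← Matrix.mul_assoc E, hEE, ← Matrix.mul_assoc]
        have e7 : (M * (1 - E)) * ((1 - E) * N') = M * (1 - E) * N' := by
          rw [Matrix.mul_assoc, ← Matrix.mul_assoc (1 - E), e5, ← Matrix.mul_assoc]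
        rw [e6, e7, Matrix.mul_sub, Matrix.sub_mul, Matrix.mul_one]
        abel
      rw [split]
      have a1 := hs_adj (ρ (g γ)) E htr
      have a2 : hs ((1 - E) * N') = y := by
        have := hs_adj (ρ (g γ₂)) (1 - E) (by rw [Matrix.trace_sub, htr]; simp; norm_num)
        rw [sub_sub_cancel] at this
        rw [hy, this]
      calc hs ((M * E) * (E * N') + (M * (1 - E)) * ((1 - E) * N'))
          ≤ 2 * hs ((M * E) * (E * N')) + 2 * hs ((M * (1 - E)) * ((1 - E) * N')) := hs_add_le' _ _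
        _ ≤ 2 * (x * hs (E * N')) + 2 * (hs (E * (((ρ (g γ))⁻¹ : SL) : Mat)) * y) := by
            have b1 := hHS1.1 (M * E) (E * N')
            have b2 := hHS1.1 (M * (1 - E)) ((1 - E) * N')
            rw [a2, a1] at b2
            linarith
        _ ≤ 2 * (3 * y * hs (E * N')) + 2 * (hs (E * (((ρ (g γ))⁻¹ : SL) : Mat)) * (3 * x)) := by
            have b1 := mul_le_mul_of_nonneg_right q1 (hs_nn (E * N'))
            have b2 := mul_le_mul_of_nonneg_left q2 (hs_nn (E * (((ρ (g γ))⁻¹ : SL) : Mat)))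
            linarith
        _ ≤ 12 * (16 / c1) ^ 2 := by nlinarith
    · intro γ hγ γ' hγ' hh
      simp only [Finset.coe_filter, Set.mem_setOf_eq] at hγ hγ'
      have h5 : g γ = g γ' := mul_right_cancel hh
      rw [← hg1 γ hγ.1, ← hg1 γ' hγ'.1, h5]

/-! ### the trace form -/

private lemma sing {Γ : Type} [Group Γ] (ρ : Γ →* SL)
    (hirr : ∀ v : Fin 2 → ℂ, v ≠ 0 → ∃ γ : Γ, ∀ c : ℂ, (ρ γ : Mat).mulVec v ≠ c • v) (M : Mat)
    (hdet : M.det = 0) (h : ∀ γ, (M * (ρ γ : Mat)).trace = 0) : M = 0 := by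
  obtain ⟨u, w, rfl⟩ := rank_one M hdet
  by_contra hne
  have hu : u ≠ 0 := by
    rintro rfl
    apply hne
    ext i j
    simp [vecMulVec_apply]
  have hw : w ≠ 0 := by
    rintro rfl
    apply hne
    ext i j
    simp [vecMulVec_apply]
  obtain ⟨γ, hγ⟩ := hirr u hu
  have h1 : w 0 * u 0 + w 1 * u 1 = 0 := by
    have := h 1
    rw [map_one, Matrix.SpecialLinearGroup.coe_one, Matrix.mul_one, Matrix.trace_fin_two,
      vecMulVec_apply, vecMulVec_apply] at this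
    linear_combination this
  set x := (ρ γ : Mat).mulVec u with hx
  have hx0 : x 0 = ρ γ 0 0 * u 0 + ρ γ 0 1 * u 1 := by
    rw [hx]; simp [Matrix.mulVec, dotProduct, Fin.sum_univ_two]
  have hx1 : x 1 = ρ γ 1 0 * u 0 + ρ γ 1 1 * u 1 := by
    rw [hx]; simp [Matrix.mulVec, dotProduct, Fin.sum_univ_two]
  have h2 : w 0 * x 0 + w 1 * x 1 = 0 := by
    have := h γ
    rw [Matrix.trace_fin_two, Matrix.mul_apply, Matrix.mul_apply, Fin.sum_univ_two,
      Fin.sum_univ_two] at this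
    simp only [vecMulVec_apply] at this
    rw [hx0, hx1]
    linear_combination this
  have h3 : u 0 * x 1 = u 1 * x 0 := by
    have hw' : w 0 ≠ 0 ∨ w 1 ≠ 0 := by
      by_contra hc
      push Not at hc
      apply hw
      ext i
      fin_cases i
      · exact hc.1
      · exact hc.2
    rcases hw' with hw' | hw'
    · apply mul_left_cancel₀ hw'
      linear_combination x 1 * h1 - u 1 * h2
    · apply mul_left_cancel₀ hw'
      linear_combination -x 0 * h1 + u 0 * h2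
  by_cases hu0 : u 0 = 0
  · have hu1 : u 1 ≠ 0 := by
      intro hu1
      apply hu
      ext i
      fin_cases i
      · exact hu0
      · exact hu1
    apply hγ (x 1 / u 1)
    ext i
    fin_cases i
    · rw [hu0, zero_mul] at h3
      have : x 0 = 0 := by
        rcases mul_eq_zero.1 h3.symm with h4 | h4
        · exact absurd h4 hu1
        · exact h4
      show x 0 = (x 1 / u 1) * u 0
      rw [this, hu0, mul_zero]
    · show x 1 = (x 1 / u 1) * u 1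
      field_simp
  · apply hγ (x 0 / u 0)
    ext i
    fin_cases i
    · show x 0 = (x 0 / u 0) * u 0
      field_simp
    · show x 1 = (x 0 / u 0) * u 1
      field_simp
      linear_combination h3

private lemma trf {Γ : Type} [Group Γ] (hHS2 : St_HS2) (ρ : Γ →* SL)
    (hirr : ∀ v : Fin 2 → ℂ, v ≠ 0 → ∃ γ : Γ, ∀ c : ℂ, (ρ γ : Mat).mulVec v ≠ c • v) (M : Mat)
    (hM : M ≠ 0) : ∃ γ, (M * (ρ γ : Mat)).trace ≠ 0 := by
  by_contra hcon
  push Not at hcon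
  have hdet : IsUnit M.det := by
    rw [isUnit_iff_ne_zero]
    intro h
    exact hM (sing ρ hirr M h hcon)
  obtain ⟨γ, hγ⟩ := hirr ![1, 0] (by
    intro h
    have := congrFun h 0
    simp at this)
  obtain ⟨μ, hμ, -, -⟩ := hHS2.1 (ρ γ)
  have h1 : M * ((ρ γ : Mat) - μ • 1) = 0 := by
    apply sing ρ hirr
    · rw [Matrix.det_mul]
      have : ((ρ γ : Mat) - μ • (1 : Mat)).det = 0 := by
        have hd := (ρ γ).det_coe
        rw [Matrix.det_fin_two] at hd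
        rw [Matrix.trace_fin_two] at hμ
        rw [Matrix.det_fin_two]
        simp
        linear_combination hd + hμ
      rw [this, mul_zero]
    · intro δ
      rw [Matrix.mul_sub, Matrix.sub_mul, Matrix.mul_smul, Matrix.mul_one, Matrix.smul_mul,
        Matrix.trace_sub, Matrix.trace_smul, hcon δ, smul_zero, sub_zero, Matrix.mul_assoc,
        ← Matrix.SpecialLinearGroup.coe_mul, ← map_mul]
      exact hcon _
  have h2 : (ρ γ : Mat) - μ • 1 = 0 := by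
    have h3 : M⁻¹ * (M * ((ρ γ : Mat) - μ • 1)) = 0 := by rw [h1, Matrix.mul_zero]
    rwa [← Matrix.mul_assoc, Matrix.nonsing_inv_mul _ hdet, Matrix.one_mul] at h3
  apply hγ μ
  rw [sub_eq_zero] at h2
  rw [h2, Matrix.smul_mulVec, Matrix.one_mulVec]

private lemma cpt : IsCompact {M : Mat | hs M = 1} := by
  have hc : Continuous (fun M : Mat => hs M) := by
    unfold hs
    refine continuous_finset_sum _ fun i _ => continuous_finset_sum _ fun j _ => ?_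
    exact (continuous_id.matrix_elem i j).norm.pow 2
  have hK : IsCompact (Set.pi univ fun _ : Fin 2 => Set.pi univ fun _ : Fin 2 =>
      Metric.closedBall (0 : ℂ) 1) :=
    isCompact_univ_pi fun _ => isCompact_univ_pi fun _ => isCompact_closedBall 0 1
  refine IsCompact.of_isClosed_subset (s := (Set.pi univ fun _ : Fin 2 => Set.pi univ fun _ : Fin 2 =>
      Metric.closedBall (0 : ℂ) 1)) hK (isClosed_eq hc continuous_const) ?_
  intro M hM i _ j _
  rw [mem_closedBall_zero_iff]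
  have h1 : hs M = 1 := hM
  have h2 : ‖M i j‖ ^ 2 ≤ 1 := by
    rw [← h1]
    unfold hs
    calc ‖M i j‖ ^ 2 ≤ ∑ j, ‖M i j‖ ^ 2 :=
          Finset.single_le_sum (f := fun j => ‖M i j‖ ^ 2) (fun _ _ => by positivity) (Finset.mem_univ j)
      _ ≤ _ := Finset.single_le_sum (f := fun i => ∑ j, ‖M i j‖ ^ 2) (fun _ _ => by positivity)
          (Finset.mem_univ i)
  have h3 := norm_nonneg (M i j)
  nlinarith

private lemma trace_bound {Γ : Type} [Group Γ] (hHS2 : St_HS2) (ρ : Γ →* SL)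
    (hirr : ∀ v : Fin 2 → ℂ, v ≠ 0 → ∃ γ : Γ, ∀ c : ℂ, (ρ γ : Mat).mulVec v ≠ c • v) :
    ∃ (F : Finset Γ) (c0 : ℝ), 0 < c0 ∧ ∀ M : Mat, M ≠ 0 →
      ∃ f ∈ F, c0 * hs M ≤ ‖(M * (ρ f : Mat)).trace‖ ^ 2 := by
  classical
  have hcov : {M : Mat | hs M = 1} ⊆ ⋃ i : Γ × ℕ,
      {M : Mat | 1 / ((i.2 : ℝ) + 1) < ‖(M * (ρ i.1 : Mat)).trace‖ ^ 2} := by
    intro M hM
    have hM0 : M ≠ 0 := by
      rintro rfl
      have : hs (0 : Mat) = 1 := hM
      simp [hs] at this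
    obtain ⟨γ, hγ⟩ := trf hHS2 ρ hirr M hM0
    have hp : 0 < ‖(M * (ρ γ : Mat)).trace‖ ^ 2 := by
      have := norm_pos_iff.2 hγ
      positivity
    obtain ⟨n, hn⟩ := exists_nat_one_div_lt hp
    exact mem_iUnion.2 ⟨(γ, n), hn⟩
  obtain ⟨t, ht⟩ := cpt.elim_finite_subcover _ (fun i => by
    apply isOpen_lt continuous_const
    exact ((continuous_id.matrix_mul continuous_const).matrix_trace.norm.pow 2)) hcov
  set N := t.sup Prod.snd with hN
  refine ⟨t.image Prod.fst, 1 / ((N : ℝ) + 1), by positivity, fun M hM => ?_⟩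
  have hp := hs_pos' hM
  have hsq : 0 < Real.sqrt (hs M) := Real.sqrt_pos.2 hp
  have hu : hs (((Real.sqrt (hs M))⁻¹ : ℂ) • M) = 1 := by
    rw [hs_smul', norm_inv, Complex.norm_real, Real.norm_of_nonneg hsq.le, inv_pow,
      Real.sq_sqrt hp.le, inv_mul_cancel₀ hp.ne']
  have h1 := ht hu
  rw [mem_iUnion₂] at h1
  obtain ⟨i, hi, h2⟩ := h1
  have h2' : 1 / ((i.2 : ℝ) + 1) < ‖((((Real.sqrt (hs M))⁻¹ : ℂ) • M) * (ρ i.1 : Mat)).trace‖ ^ 2 := h2
  refine ⟨i.1, Finset.mem_image_of_mem _ hi, ?_⟩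
  rw [Matrix.smul_mul, Matrix.trace_smul, norm_smul, norm_inv, Complex.norm_real,
    Real.norm_of_nonneg hsq.le, mul_pow, inv_pow, Real.sq_sqrt hp.le] at h2'
  have h3 : (i.2 : ℝ) ≤ N := by
    exact_mod_cast (Finset.le_sup (f := Prod.snd) hi : i.2 ≤ N)
  have h4 : 1 / ((N : ℝ) + 1) ≤ 1 / ((i.2 : ℝ) + 1) :=
    one_div_le_one_div_of_le (by positivity) (by linarith)
  have h5 : 1 / ((N : ℝ) + 1) < (hs M)⁻¹ * ‖(M * (ρ i.1 : Mat)).trace‖ ^ 2 := lt_of_le_of_lt h4 h2'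
  have h6 := mul_lt_mul_of_pos_right h5 hp
  have h7 : (hs M)⁻¹ * ‖(M * (ρ i.1 : Mat)).trace‖ ^ 2 * hs M = ‖(M * (ρ i.1 : Mat)).trace‖ ^ 2 := by
    field_simp
  linarith

private lemma arith {s Fc B G N a b n C4 : ℝ} (hFc : 0 ≤ Fc) (hB : 0 ≤ B) (hN : 0 ≤ N)
    (ha : 0 ≤ a) (hb : 0 ≤ b) (hn : 0 ≤ n) (hC4 : 0 ≤ C4) (h1 : s ≤ Fc * (B + G))
    (h3 : G ≤ N * ((1 + a) * (1 + b)) * n) :
    s ≤ (C4 + Fc * B + Fc * (N * (1 + a))) * (1 + b) * (1 + n) := by
  have h4 : 0 ≤ Fc * B := mul_nonneg hFc hB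
  have h5 : 0 ≤ Fc * (N * (1 + a)) := mul_nonneg hFc (mul_nonneg hN (by linarith))
  have h6 : (1 : ℝ) ≤ (1 + b) * (1 + n) := by nlinarith
  have h7 : Fc * (B + G) ≤ Fc * (B + N * ((1 + a) * (1 + b)) * n) :=
    mul_le_mul_of_nonneg_left (by linarith) hFc
  have h8 := mul_le_mul_of_nonneg_left h6 h4
  have h9 : (1 + b) * n ≤ (1 + b) * (1 + n) := mul_le_mul_of_nonneg_left (by linarith) (by linarith)
  have h10 := mul_le_mul_of_nonneg_left h9 h5
  have h11 : 0 ≤ C4 * ((1 + b) * (1 + n)) := mul_nonneg hC4 (by linarith)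
  calc s ≤ Fc * (B + N * ((1 + a) * (1 + b)) * n) := h1.trans h7
    _ = Fc * B * 1 + Fc * (N * (1 + a)) * ((1 + b) * n) := by ring
    _ ≤ Fc * B * ((1 + b) * (1 + n)) + Fc * (N * (1 + a)) * ((1 + b) * (1 + n)) := by linarith
    _ ≤ C4 * ((1 + b) * (1 + n)) + (Fc * B * ((1 + b) * (1 + n)) +
        Fc * (N * (1 + a)) * ((1 + b) * (1 + n))) := by linarith
    _ = _ := by ring

/-- **OCT** -/
theorem hOCT (hHS1 : Pool.Agent.Helper35.PM.St_HS1) (hHS2 : Pool.Agent.Helper35.PM.St_HS2)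
    (hLN : Pool.Agent.Helper35.PM.St_LN) (hCL : Pool.Agent.Helper35.PM.St_CL) : StOCT := by
  classical
  intro Γ _ ρ hcc hirr
  have hd := hcc.discrete
  obtain ⟨hclf, -⟩ := hCL Γ ρ hcc.discrete hcc.cocompact
  obtain ⟨F, c0, hc0, hF⟩ := trace_bound hHS2 ρ hirr
  have hmono : ∀ T T' : ℝ, T ≤ T' → num ρ T ≤ num ρ T' := fun T T' h =>
    Set.ncard_le_ncard (fun c hc => le_trans (show len ρ c ≤ T from hc) h) (hclf T')
  obtain ⟨C4, hC4⟩ : ∃ c : ℝ, c = 2 + ∑ f ∈ F, hs (ρ f : Mat) := ⟨_, rfl⟩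
  have hsum0 : 0 ≤ ∑ f ∈ F, hs (ρ f : Mat) := Finset.sum_nonneg fun f _ => hs_nn _
  have hC4p : 2 ≤ C4 := by rw [hC4]; linarith
  have hC4f : ∀ f ∈ F, hs (ρ f : Mat) ≤ C4 := by
    intro f hf
    have := Finset.single_le_sum (f := fun f => hs (ρ f : Mat)) (fun f _ => hs_nn _) hf
    rw [hC4]
    linarith
  obtain ⟨c1, hc1⟩ : ∃ c : ℝ, c = c0 / C4 := ⟨_, rfl⟩
  have hc1p : 0 < c1 := by rw [hc1]; exact div_pos hc0 (by linarith)
  set B0 : Finset Γ := (hd (16 / c1)).toFinset with hB0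
  obtain ⟨N3, hN3⟩ : ∃ N : ℕ, N = (hd (12 * (16 / c1) ^ 2)).toFinset.card := ⟨_, rfl⟩
  obtain ⟨nF, hnF⟩ : ∃ N : ℕ, N = F.card := ⟨_, rfl⟩
  obtain ⟨nB, hnB⟩ : ∃ N : ℕ, N = B0.card := ⟨_, rfl⟩
  have hlogC : 0 ≤ Real.log C4 := Real.log_nonneg (by linarith)
  have hCp : 0 ≤ (nF : ℝ) * nB + nF * (N3 * (1 + Real.log C4)) :=
    add_nonneg (mul_nonneg (Nat.cast_nonneg _) (Nat.cast_nonneg _))
      (mul_nonneg (Nat.cast_nonneg _) (mul_nonneg (Nat.cast_nonneg _) (by linarith)))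
  refine ⟨C4 + nF * nB + nF * (N3 * (1 + Real.log C4)), by linarith, fun X hX => ?_⟩
  obtain ⟨C, hC⟩ : ∃ C : ℝ, C = C4 + nF * nB + nF * (N3 * (1 + Real.log C4)) := ⟨_, rfl⟩
  rw [← hC]
  have hlogX : 0 ≤ Real.log X := Real.log_nonneg hX
  obtain ⟨Y, hY⟩ : ∃ Y : ℝ, Y = C4 * X := ⟨_, rfl⟩
  have hYp : 0 < Y := by rw [hY]; exact mul_pos (by linarith) (by linarith)
  set G : Finset Γ := (hd Y).toFinset.filter fun γ => 16 ≤ ‖(ρ γ : Mat).trace‖ ^ 2 ∧
      c1 * hs (ρ γ : Mat) ≤ ‖(ρ γ : Mat).trace‖ ^ 2 with hG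
  have hGm : ∀ γ ∈ G, hs (ρ γ : Mat) ≤ Y ∧ 16 ≤ ‖(ρ γ : Mat).trace‖ ^ 2 ∧
      c1 * hs (ρ γ : Mat) ≤ ‖(ρ γ : Mat).trace‖ ^ 2 := by
    intro γ hγ
    rw [hG, Finset.mem_filter, Set.Finite.mem_toFinset] at hγ
    exact ⟨hγ.1, hγ.2⟩
  -- the good elements
  have hGcard : G.card ≤ N3 * (⌊Real.log Y⌋₊ + 1) * num ρ (Real.log Y) := by
    have h1 := Finset.card_le_mul_card_image (f := fun γ : Γ => ConjClasses.mk γ) G
      (N3 * (⌊Real.log Y⌋₊ + 1)) (by
        intro c hc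
        obtain ⟨γ₁, hγ₁, rfl⟩ := Finset.mem_image.1 hc
        rw [hN3]
        refine fib hHS1 hHS2 ρ hd c1 hc1p Y _ ?_ γ₁ ?_ ?_
        · intro γ hγ
          exact hGm γ (Finset.mem_filter.1 hγ).1
        · exact Finset.mem_filter.2 ⟨hγ₁, rfl⟩
        · intro γ hγ
          exact (ConjClasses.mk_eq_mk_iff_isConj.1 (Finset.mem_filter.1 hγ).2).symm)
    refine h1.trans (Nat.mul_le_mul_left _ ?_)
    rw [← Set.ncard_coe_finset]
    refine Set.ncard_le_ncard ?_ (hclf _)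
    intro c hc
    obtain ⟨γ, hγ, rfl⟩ := Finset.mem_image.1 (Finset.mem_coe.1 hc)
    show len ρ (ConjClasses.mk γ) ≤ Real.log Y
    rw [hLN Γ ρ γ, Real.le_log_iff_exp_le hYp]
    exact ((hHS2.2.2.1 (ρ γ)).2).trans (hGm γ hγ).1
  -- the map
  have hex : ∀ γ : Γ, ∃ f ∈ F, c0 * hs (ρ γ : Mat) ≤ ‖(ρ (γ * f) : Mat).trace‖ ^ 2 := by
    intro γ
    obtain ⟨f, hf, h1⟩ := hF (ρ γ : Mat) (by
      intro h
      have h2 := hHS1.2.2.1 (ρ γ)
      rw [h] at h2
      simp [hs] at h2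
      norm_num at h2)
    refine ⟨f, hf, ?_⟩
    rw [map_mul, Matrix.SpecialLinearGroup.coe_mul]
    exact h1
  choose φ hφF hφ using hex
  have hcard : (hd X).toFinset.card ≤ F.card * (B0.card + G.card) := by
    calc (hd X).toFinset.card ≤ (F ×ˢ (B0 ∪ G)).card := by
          apply Finset.card_le_card_of_injOn (fun γ => (φ γ, γ * φ γ))
          · intro γ hγ
            rw [Finset.mem_coe, Set.Finite.mem_toFinset] at hγ
            have hγ' : hs (ρ γ : Mat) ≤ X := hγ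
            rw [Finset.mem_coe, Finset.mem_product]
            refine ⟨hφF γ, ?_⟩
            show γ * φ γ ∈ B0 ∪ G
            have h1 : hs (ρ (γ * φ γ) : Mat) ≤ C4 * hs (ρ γ : Mat) := by
              rw [map_mul, Matrix.SpecialLinearGroup.coe_mul]
              refine (hHS1.1 _ _).trans ?_
              rw [mul_comm]
              exact mul_le_mul_of_nonneg_right (hC4f _ (hφF γ)) (hs_nn _)
            have h2 : c1 * hs (ρ (γ * φ γ) : Mat) ≤ ‖(ρ (γ * φ γ) : Mat).trace‖ ^ 2 := by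
              refine le_trans ?_ (hφ γ)
              calc c1 * hs (ρ (γ * φ γ) : Mat) ≤ c1 * (C4 * hs (ρ γ : Mat)) :=
                    mul_le_mul_of_nonneg_left h1 hc1p.le
                _ = c0 * hs (ρ γ : Mat) := by
                  rw [← mul_assoc, hc1, div_mul_cancel₀ _ (ne_of_gt (by linarith))]
            rw [Finset.mem_union]
            by_cases h3 : 16 ≤ ‖(ρ (γ * φ γ) : Mat).trace‖ ^ 2
            · right
              rw [hG, Finset.mem_filter, Set.Finite.mem_toFinset]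
              refine ⟨?_, h3, h2⟩
              show hs (ρ (γ * φ γ) : Mat) ≤ Y
              rw [hY]
              exact h1.trans (mul_le_mul_of_nonneg_left hγ' (by linarith))
            · left
              push Not at h3
              rw [hB0, Set.Finite.mem_toFinset]
              show hs (ρ (γ * φ γ) : Mat) ≤ 16 / c1
              rw [le_div_iff₀ hc1p]
              linarith
          · intro γ _ γ' _ hh
            have h4 := congrArg Prod.fst hh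
            have h5 := congrArg Prod.snd hh
            simp only at h4 h5
            rw [h4] at h5
            exact mul_right_cancel h5
      _ = F.card * (B0 ∪ G).card := Finset.card_product _ _
      _ ≤ F.card * (B0.card + G.card) := Nat.mul_le_mul_left _ (Finset.card_union_le _ _)
  have hnc : ({γ : Γ | hs (ρ γ : Mat) ≤ X}.ncard) = (hd X).toFinset.card := by
    rw [Set.ncard_eq_toFinset_card _ (hd X)]
  rw [hnc]
  have hYle : Real.log Y ≤ Real.log (C * X) := by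
    apply Real.log_le_log hYp
    rw [hY]
    apply mul_le_mul_of_nonneg_right _ (by linarith)
    rw [hC]
    linarith
  have hnum : (num ρ (Real.log Y) : ℝ) ≤ num ρ (Real.log (C * X)) := by
    exact_mod_cast hmono _ _ hYle
  obtain ⟨n', hn'⟩ : ∃ n' : ℝ, n' = num ρ (Real.log (C * X)) := ⟨_, rfl⟩
  rw [← hn'] at hnum ⊢
  have hn0 : 0 ≤ n' := by rw [hn']; exact Nat.cast_nonneg _
  have hfl : ((⌊Real.log Y⌋₊ : ℕ) : ℝ) + 1 ≤ (1 + Real.log C4) * (1 + Real.log X) := by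
    have h1 : Real.log Y = Real.log C4 + Real.log X := by
      rw [hY]
      exact Real.log_mul (by linarith) (by linarith)
    have h2 := Nat.floor_le (a := Real.log Y) (by rw [h1]; linarith)
    nlinarith
  have h1 : (((hd X).toFinset.card : ℕ) : ℝ) ≤ nF * (nB + G.card) := by
    rw [hnF, hnB]
    exact_mod_cast hcard
  have h2 : ((G.card : ℕ) : ℝ) ≤ N3 * (((⌊Real.log Y⌋₊ : ℕ) : ℝ) + 1) * num ρ (Real.log Y) := by
    exact_mod_cast hGcard
  have h3 : ((G.card : ℕ) : ℝ) ≤ N3 * ((1 + Real.log C4) * (1 + Real.log X)) * n' := by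
    refine h2.trans ?_
    apply mul_le_mul _ hnum (Nat.cast_nonneg _)
      (mul_nonneg (Nat.cast_nonneg _) (mul_nonneg (by linarith) (by linarith)))
    exact mul_le_mul_of_nonneg_left hfl (Nat.cast_nonneg _)
  rw [hC]
  exact arith (Nat.cast_nonneg _) (Nat.cast_nonneg _) (Nat.cast_nonneg _) hlogC hlogX hn0
    (by linarith) h1 h3

end Pool.Agent.Helper93.QA
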